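import Pool.Agent.Q207.CT.Cpm

/-!
# A model of ZF in which `Φ₄ ∧ Φ₅` holds

There is a countable transitive model of ZF in which every infinite set is Dedekind infinite, every
well-ordered family of nonempty finite sets has a choice function, and every uncountable compact
metrizable space has at least the size of the continuum, but in which some sequence of nonempty
compact metrizable spaces has no choice function, some countable product of compact metrizable
spaces is not compact, and some denumerable family of denumerable sets has no multiple choice
function.

The model is the symmetric submodel of `Pool.Agent.Q207.CT`: the notion of forcing adds generic sets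
`y n t j` for the natural numbers `n`, the points `t` of the circle `ℝ / ℤ` and the real numbers
`j`; the group rotates every level `n` by a rational number and moves the `j` arbitrarily; the
supports bound the levels that may be rotated and fix countably many indices of these levels. With
`a n t = {y n t j : j ∈ ℝ}`, the compact spaces are `A n = {a n t : t ∈ ℝ / ℤ}` and `A n ∪ {∞}`, and
the denumerable sets are `{a n t : t ∈ ℚ / ℤ}`.
-/

set_option autoImplicit false

namespace Pool.Agent.Results.MP_5b7390_lc.Model

open Pool.Agent.W868 Pool.Agent.Q211.SY Pool.Agent.Q207.CT

/-- The conjunction `Φ₄` in `M`. -/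
def Phi4 (M : Set ZFSet.{0}) : Prop := IDI M ∧ WOACfin M ∧ MCSize M

/-- The conjunction `Φ₅` in `M`. -/
def Phi5 (M : Set ZFSet.{0}) : Prop := ¬ CACle M ∧ ¬ CPMle M ∧ ¬ CMComega M

/-- There is a countable transitive model of ZF in which `Φ₄` and `Φ₅` hold. -/
theorem result : ∃ M : Set ZFSet.{0}, M.Countable ∧ IsZF M ∧ Phi4 M ∧ Phi5 M := main2

end Pool.Agent.Results.MP_5b7390_lc.Model
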